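import Pool.Agent.Helper33.QB.Frame
import Pool.Agent.Helper55.QB.Res
import Pool.Agent.Helper86.QB.Book

/-!
# Project QB: closing off
-/

set_option autoImplicit false

namespace Pool.Agent.Helper33.QB

open Set Pool.Agent.Helper33.HMG Pool.Agent.Helper32.HB

section P
variable {Ω : Type} {α : Ordinal.{0}} {b : Ordinal.{0} → NmD Ω Ordinal.{0}}

/-- Closing off. -/
theorem closing {ι : Type} (D : ι → CP Ω α b → CP Ω α b → Prop)
    (hD : ∀ a p, ∃ q ≤ p, D a p q) (j0 : Ordinal.{0}) :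
    ∃ j ≥ j0, ∀ p : CP Ω α b, p.1 ∈ V α b j → ∀ a, ∃ q ≤ p, q.1 ∈ V α b j ∧ D a p q := by
  classical
  choose q hq hDq using hD
  choose st hst using fun p : CP Ω α b => p.2
  -- smallness of the stages
  have hsm : ∀ j : Ordinal.{0}, Small.{0} {p : CP Ω α b // p.1 ∈ V α b j} := by
    intro j
    have := small_cnd Ω α j
    have hf : Function.Injective (fun p : {p : CP Ω α b // p.1 ∈ V α b j} =>
        (⟨p.1.1, (mem_V.1 p.2).1, fun l hl => ((mem_V.1 p.2).2 l hl).1⟩ :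
          {p : Cnd Ω Ordinal.{0} | Basic α p ∧ ∀ l ∈ p.S, l < j})) := by
      intro x y hxy
      have h1 : x.1.1 = y.1.1 := by
        simpa using hxy
      exact Subtype.ext (Subtype.ext h1)
    exact small_of_injective hf
  let Φ : Ordinal.{0} → Ordinal.{0} := fun j =>
    max (Order.succ j) (⨆ z : {p : CP Ω α b // p.1 ∈ V α b j} × ι, st (q z.2 z.1.1))
  have hΦ : ∀ (j : Ordinal.{0}) (p : CP Ω α b), p.1 ∈ V α b j → ∀ a, st (q a p) ≤ Φ j := by
    intro j p hp a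
    have := hsm j
    have hb : BddAbove (range fun z : {p : CP Ω α b // p.1 ∈ V α b j} × ι =>
        st (q z.2 z.1.1)) := Ordinal.bddAbove_of_small
    refine le_trans ?_ (le_max_right _ _)
    exact le_ciSup hb (⟨⟨p, hp⟩, a⟩ : {p : CP Ω α b // p.1 ∈ V α b j} × ι)
  let J : Ordinal.{0} → Ordinal.{0} := (wellFounded_lt (α := Ordinal.{0})).fix fun ξ ih =>
    max j0 (⨆ z : Iio ξ, Φ (ih z.1 z.2))
  have hJ : ∀ ξ, J ξ = max j0 (⨆ z : Iio ξ, Φ (J z.1)) := by
    intro ξ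
    exact WellFounded.fix_eq _ _ _
  have hJ0 : ∀ ξ, j0 ≤ J ξ := by
    intro ξ
    rw [hJ]
    exact le_max_left _ _
  have hJs : ∀ η ξ : Ordinal.{0}, η < ξ → Φ (J η) ≤ J ξ := by
    intro η ξ h
    rw [hJ ξ]
    refine le_trans ?_ (le_max_right _ _)
    have hb : BddAbove (range fun z : Iio ξ => Φ (J z.1)) := Ordinal.bddAbove_of_small
    exact le_ciSup hb (⟨η, h⟩ : Iio ξ)
  have hJm : ∀ η ξ : Ordinal.{0}, η < ξ → J η < J ξ := by
    intro η ξ h
    exact ((Order.lt_succ _).trans_le (le_max_left _ _)).trans_le (hJs η ξ h)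
  refine ⟨J (Ordinal.omega 1), hJ0 _, ?_⟩
  intro p hp a
  -- a stage below `ω₁` which contains all letters
  have h1 : ∀ l : p.1.S, ∃ ξ < Ordinal.omega.{0} 1, l.1 < J ξ := by
    intro l
    have hl := V.letters hp l.1 l.2
    rw [hJ, lt_max_iff] at hl
    rcases hl with hl | hl
    · exact ⟨0, Ordinal.omega_pos 1, hl.trans_le (hJ0 _)⟩
    · obtain ⟨z, hz⟩ := (Ordinal.lt_iSup_iff).1 hl
      have hz' : z.1 < Ordinal.omega.{0} 1 := z.2
      refine ⟨Order.succ z.1, (Cardinal.isSuccLimit_omega 1).succ_lt hz', ?_⟩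
      exact hz.trans_le (hJs _ _ (Order.lt_succ _))
  choose ξ hξ hlξ using h1
  have hcS : Countable p.1.S := p.basic.cS.to_subtype
  obtain ⟨ζ, hζ, hζ'⟩ : ∃ ζ < Ordinal.omega.{0} 1, ∀ l, ξ l ≤ ζ := by
    have hb : BddAbove (range ξ) := Ordinal.bddAbove_of_small
    exact ⟨⨆ l, ξ l, Ordinal.iSup_lt_omega_one hξ, fun l => le_ciSup hb l⟩
  have hpζ : p.1 ∈ V α b (J ζ) := by
    refine V.of_letters hp fun l hl => ?_
    rcases (hζ' ⟨l, hl⟩).lt_or_eq with h | h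
    · exact (hlξ ⟨l, hl⟩).trans (hJm _ _ h)
    · exact h ▸ hlξ ⟨l, hl⟩
  refine ⟨q a p, hq a p, ?_, hDq a p⟩
  exact V.mono ((hΦ _ p hpζ a).trans (hJs _ _ hζ)) (hst (q a p))

end P

end Pool.Agent.Helper33.QB
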