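import Pool.Agent.Helper33.QB.Frame

/-!
# Project QB: positions in the well-ordered set, the ordinals `ω ^ γ`, a copy of `ω₁`
-/

set_option autoImplicit false

namespace Pool.Agent.Helper33.QB

open Set Cardinal

section NA

variable {Ω : Type} [LinearOrder Ω] [WellFoundedLT Ω]

theorem ot_lt {x y : Ω} : ot x < ot y ↔ x < y :=
  Ordinal.typein_lt_typein _

theorem ot_inj {x y : Ω} : ot x = ot y ↔ x = y :=
  Ordinal.typein_inj _

theorem ot_fin {x : Ω} : ot x < Ordinal.omega0 ↔ (Iio x).Finite := by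
  rw [← Ordinal.card_lt_aleph0, ot, Ordinal.card_typein]
  exact Cardinal.lt_aleph0_iff_finite

theorem exists_ot [Uncountable Ω] {β : Ordinal.{0}} (hβ : (Iio β).Countable) :
    ∃ x : Ω, ot x = β := by
  by_contra h
  have h1 : Ordinal.type (fun x y : Ω => x < y) ≤ β := by
    by_contra h2
    push Not at h2
    exact h (Ordinal.typein_surj _ h2)
  have h3 : ∀ x : Ω, ot x ∈ Iio β := fun x => (Ordinal.typein_lt_type _ x).trans_le h1
  have h4 : Function.Injective (fun x : Ω => (⟨ot x, h3 x⟩ : Iio β)) := by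
    intro x y hxy
    exact ot_inj.1 (Subtype.ext_iff.1 hxy)
  have := hβ.to_subtype
  have : Countable Ω := h4.countable
  exact not_countable (α := Ω) this

end NA

section FI

theorem h6_countable_Iio {o : Ordinal.{0}} (h : o < Ordinal.omega 1) : (Iio o).Countable := by
  rw [← le_aleph0_iff_set_countable, Cardinal.mk_Iio_ordinal]
  rw [Cardinal.lt_omega_iff_card_lt, Cardinal.lt_aleph_one_iff] at h
  exact Cardinal.lift_le_aleph0.2 h

theorem ind_opow {γ : Ordinal.{0}} (h1 : 1 ≤ γ) (h2 : γ < Ordinal.omega 1) :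
    Ind (Ordinal.omega0 ^ γ) where
  one := by
    have h : Ordinal.omega0 ^ (1 : Ordinal.{0}) ≤ Ordinal.omega0 ^ γ :=
      Ordinal.opow_le_opow_right Ordinal.omega0_pos h1
    rw [Ordinal.opow_one] at h
    exact Ordinal.one_lt_omega0.trans_le h
  add := fun β hβ γ' hγ => Ordinal.isPrincipal_add_omega0_opow γ hβ hγ
  ctb := h6_countable_Iio (Ordinal.isPrincipal_opow_omega 1 Ordinal.omega0_lt_omega_one h2)

theorem exists_omega1 : ∃ (Ω : Type) (_ : LinearOrder Ω) (_ : WellFoundedLT Ω),
    Uncountable Ω ∧ ∀ x : Ω, (Iio x).Countable := by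
  refine ⟨(Ordinal.omega.{0} 1).ToType, inferInstance, inferInstance, ?_, ?_⟩
  · rw [← Cardinal.aleph0_lt_mk_iff, Cardinal.mk_toType, Ordinal.card_omega]
    exact Cardinal.aleph0_lt_aleph_one
  · intro x
    rw [← le_aleph0_iff_set_countable]
    have h : (Ordinal.typein (fun x y : (Ordinal.omega.{0} 1).ToType => x < y) x) <
        Ordinal.omega 1 := by
      have := Ordinal.typein_lt_type (fun x y : (Ordinal.omega.{0} 1).ToType => x < y) x
      rwa [Ordinal.type_toType] at this
    rw [Cardinal.lt_omega_iff_card_lt, Cardinal.lt_aleph_one_iff, Ordinal.card_typein] at h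
    exact h

end FI

end Pool.Agent.Helper33.QB
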